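import Mathlib

/-!
# Leonard pairs of `q`-Racah type and the equitable presentation of `U_q(sl_2)`
-/

namespace Q4.Leo

variable {K V : Type*} [Field K] [AddCommGroup V] [Module K V]

/-- An irreducible tridiagonal matrix. -/
def IrredTridiag {d : ℕ} (M : Matrix (Fin (d + 1)) (Fin (d + 1)) K) : Prop :=
  (∀ i j : Fin (d + 1), (i : ℕ) + 1 < j ∨ (j : ℕ) + 1 < i → M i j = 0) ∧
    ∀ i j : Fin (d + 1), (i : ℕ) + 1 = j ∨ (j : ℕ) + 1 = i → M i j ≠ 0

/-- `A, B` is a Leonard pair on `V` (of dimension `d + 1`): some basis makes `A` diagonal and `B`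
irreducible tridiagonal, and some basis makes `B` diagonal and `A` irreducible tridiagonal. -/
def IsLeonardPair (d : ℕ) (A B : Module.End K V) : Prop :=
  (∃ v : Module.Basis (Fin (d + 1)) K V,
    (LinearMap.toMatrix v v A).IsDiag ∧ IrredTridiag (LinearMap.toMatrix v v B)) ∧
  ∃ v : Module.Basis (Fin (d + 1)) K V,
    (LinearMap.toMatrix v v B).IsDiag ∧ IrredTridiag (LinearMap.toMatrix v v A)

/-- The lower bidiagonal matrix with diagonal `D 0, …, D d` and all subdiagonal entries `1`. -/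
def lowerBidiag (d : ℕ) (D : ℕ → K) : Matrix (Fin (d + 1)) (Fin (d + 1)) K := fun i j =>
  if i = j then D i else if (i : ℕ) = j + 1 then 1 else 0

/-- The upper bidiagonal matrix with diagonal `D 0, …, D d` and superdiagonal `s 1, …, s d`. -/
def upperBidiag (d : ℕ) (D s : ℕ → K) : Matrix (Fin (d + 1)) (Fin (d + 1)) K := fun i j =>
  if i = j then D i else if (i : ℕ) + 1 = j then s j else 0

/-- `A, B` has the parameter array `(θ_i, θs_i; φ_i, ψ_i)`. -/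
def HasParameterArray (d : ℕ) (A B : Module.End K V) (θ θs φ ψ : ℕ → K) : Prop :=
  (∃ v : Module.Basis (Fin (d + 1)) K V,
    LinearMap.toMatrix v v A = lowerBidiag d θ ∧ LinearMap.toMatrix v v B = upperBidiag d θs φ) ∧
  ∃ v : Module.Basis (Fin (d + 1)) K V,
    LinearMap.toMatrix v v A = lowerBidiag d (fun i => θ (d - i)) ∧
      LinearMap.toMatrix v v B = upperBidiag d θs ψ

/-- `λ_i(x) = x q^{2i-d} + x⁻¹ q^{d-2i}`. -/
def lam (d : ℕ) (q x : K) (i : ℕ) : K :=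
  x * q ^ (2 * (i : ℤ) - d) + x⁻¹ * q ^ ((d : ℤ) - 2 * i)

/-- `u_i = (q^{-i} - q^i)(q^{d-i+1} - q^{i-d-1})`. -/
def uu (d : ℕ) (q : K) (i : ℕ) : K :=
  (q ^ (-(i : ℤ)) - q ^ (i : ℤ)) * (q ^ ((d : ℤ) - i + 1) - q ^ ((i : ℤ) - d - 1))

/-- `r_i(x) = q^{-i} - x q^{i-d-1}`. -/
def rr (d : ℕ) (q x : K) (i : ℕ) : K := q ^ (-(i : ℤ)) - x * q ^ ((i : ℤ) - d - 1)

/-- `φ_i = (q^{d+1}/(ab)) u_i r_i(abc) r_i(ab/c)`. -/
def phi (d : ℕ) (q a b c : K) (i : ℕ) : K :=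
  q ^ (d + 1) / (a * b) * uu d q i * rr d q (a * b * c) i * rr d q (a * b / c) i

/-- `ϕ_i = (a q^{d+1}/b) u_i r_i(bc/a) r_i(b/(ac))`. -/
def psi (d : ℕ) (q a b c : K) (i : ℕ) : K :=
  a * q ^ (d + 1) / b * uu d q i * rr d q (b * c / a) i * rr d q (b / (a * c)) i

/-- The linear maps `X, X⁻¹ = X', Y, Z` give a module structure over `U_q(sl_2)` in its equitable
presentation. -/
structure IsEquitable (q : K) (X X' Y Z : Module.End K V) : Prop where
  inv_right : X * X' = 1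
  inv_left : X' * X = 1
  xy : q • (X * Y) - q⁻¹ • (Y * X) = (q - q⁻¹) • (1 : Module.End K V)
  yz : q • (Y * Z) - q⁻¹ • (Z * Y) = (q - q⁻¹) • (1 : Module.End K V)
  zx : q • (Z * X) - q⁻¹ • (X * Z) = (q - q⁻¹) • (1 : Module.End K V)

/-- The module is irreducible: `V ≠ 0`, and the only subspaces which are invariant under
`X, X⁻¹, Y, Z` are `0` and `V`. -/
def IsIrred (X X' Y Z : Module.End K V) : Prop :=
  Nontrivial V ∧ ∀ W : Submodule K V,
    (∀ w ∈ W, X w ∈ W ∧ X' w ∈ W ∧ Y w ∈ W ∧ Z w ∈ W) → W = ⊥ ∨ W = ⊤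

end Q4.Leo
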