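import Pool.Agent.Q4.Leo.Main

/-!
# The theorem
-/

namespace Q4.Leo

variable {K V : Type*} [Field K] [AddCommGroup V] [Module K V]

theorem equitable (d : ℕ) (a b c q : K) (ha : a ≠ 0) (hb : b ≠ 0) (hc : c ≠ 0) (hq : q ≠ 0)
    (hq4 : q ^ 4 ≠ 1) (A B : Module.End K V) (hL : IsLeonardPair d A B)
    (hP : HasParameterArray d A B (lam d q a) (lam d q b) (phi d q a b c) (psi d q a b c))
    (E : Module.End K V)
    (hE : (q ^ 2 - (q ^ 2)⁻¹) • E = q⁻¹ • (A * B) - q • (B * A) +
      ((q - q⁻¹) * ((a + a⁻¹) * (b + b⁻¹) + (c + c⁻¹) * (q ^ (d + 1) + (q ^ (d + 1))⁻¹))) •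
        (1 : Module.End K V)) :
    ∃ X X' Y Z : Module.End K V, IsEquitable q X X' Y Z ∧ IsIrred X X' Y Z ∧
      A = a • X + a⁻¹ • Y + (c / b) • ((q - q⁻¹)⁻¹ • (X * Y - Y * X)) ∧
      B = b • Z + b⁻¹ • X + (a / c) • ((q - q⁻¹)⁻¹ • (Z * X - X * Z)) ∧
      E = c • Y + c⁻¹ • Z + (b / a) • ((q - q⁻¹)⁻¹ • (Y * Z - Z * Y)) := by
  obtain ⟨_, v, hvA, hvB⟩ := hP
  have hsup := super_ne v A B hL _ _ _ hvA hvB
  -- scalars
  have hq2 : q ^ 2 ≠ 1 := by
    intro h
    apply hq4
    rw [show q ^ 4 = (q ^ 2) ^ 2 by ring, h, one_pow]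
  have hqq : q - q⁻¹ ≠ 0 := by
    intro h
    apply hq2
    have : q * (q - q⁻¹) = 0 := by rw [h, mul_zero]
    have h2 : q * (q - q⁻¹) = q ^ 2 - 1 := by field_simp
    rw [h2] at this
    exact sub_eq_zero.mp this
  have hqq4 : q ^ 2 - (q ^ 2)⁻¹ ≠ 0 := by
    intro h
    apply hq4
    have : q ^ 2 * (q ^ 2 - (q ^ 2)⁻¹) = 0 := by rw [h, mul_zero]
    have h2 : q ^ 2 * (q ^ 2 - (q ^ 2)⁻¹) = q ^ 4 - 1 := by
      field_simp
    rw [h2] at this
    exact sub_eq_zero.mp this
  have hxs : ∀ k, xx d q (k + 1) = xx d q k / q ^ 2 := xx_succ hq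
  have hx : ∀ k, xx d q k ≠ 0 := xx_ne hq
  have hden' : ∀ k, a⁻¹ - c / b * q * xx d q (k + 1) = den d q a b c k := by
    intro k
    unfold den
    rw [hxs]
    field_simp
  have hgam : ∀ k, 1 ≤ k → k ≤ d → gam d q a b c k ≠ 0 := by
    intro k h1 h2 h3
    apply hsup k h1 h2
    rw [psi_eq hq ha hb hc, h3, zero_mul]
  have hden : ∀ k, k < d → den d q a b c k ≠ 0 := by
    intro k hk h3
    apply hgam (k + 1) (by omega) (by omega)
    unfold gam
    rw [hden', h3, mul_zero]
  have hbg : ∀ k, k ≤ d → (den d q a b c k)⁻¹ * gam d q a b c (k + 1) = gg d q (k + 1) := by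
    intro k hk
    unfold gam
    rw [hden']
    rcases hk.lt_or_eq with h | h
    · have := hden k h
      field_simp
    · rw [h, gg_last hq, zero_mul, mul_zero]
  have hgam0 : gam d q a b c 0 = 0 := by
    unfold gam
    rw [gg_zero, zero_mul]
  have hgamd : gam d q a b c (d + 1) = 0 := by
    unfold gam
    rw [gg_last hq, zero_mul]
  have hdist : ∀ i j : ℕ, i ≤ d → j ≤ d → xx d q i = xx d q j → i = j := by
    have key : ∀ i j : ℕ, i < j → j ≤ d → xx d q i ≠ xx d q j := by
      intro i j hij hj h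
      have h1 : (q ^ i) ^ 2 = (q ^ j) ^ 2 := by
        unfold xx at h
        have h2 := pow_ne_zero i hq
        have h3 := pow_ne_zero j hq
        have h4 := pow_ne_zero d hq
        field_simp at h
        exact h.symm
      have h2 : (q ^ (j - i)) ^ 2 = 1 := by
        have h3 : q ^ j = q ^ i * q ^ (j - i) := by
          rw [← pow_add]
          congr 1
          omega
        rw [h3, mul_pow] at h1
        have h4 := pow_ne_zero 2 (pow_ne_zero i hq)
        exact mul_left_cancel₀ h4 (h1.symm.trans (mul_one _).symm)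
      apply hgam (j - i) (by omega) (by omega)
      unfold gam gg
      rw [h2, sub_self, zero_mul, zero_mul]
    intro i j hi hj h
    rcases lt_trichotomy i j with h1 | h1 | h1
    · exact absurd h (key i j h1 hj)
    · exact h1
    · exact absurd h.symm (key j i h1 hi)
  -- the operators
  set X := up v (xx d q) (fun _ => 0) with hXdef
  set X' := up v (fun k => (xx d q k)⁻¹) (fun _ => 0) with hX'def
  set Y := up v (fun k => (xx d q k)⁻¹) (fun k => (den d q a b c k)⁻¹) with hYdef
  set Z := down v (fun k => (xx d q k)⁻¹) (gam d q a b c) with hZdef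
  have hX : ∀ k, X (ee v k) = xx d q k • ee v k := by
    intro k
    rw [hXdef, up_apply, zero_smul, add_zero]
  have hX' : ∀ k, X' (ee v k) = (xx d q k)⁻¹ • ee v k := by
    intro k
    rw [hX'def, up_apply, zero_smul, add_zero]
  have hY : ∀ k, Y (ee v k) = (xx d q k)⁻¹ • ee v k + (den d q a b c k)⁻¹ • ee v (k + 1) := by
    intro k
    rw [hYdef, up_apply]
  have hZ0 : Z (ee v 0) = (xx d q 0)⁻¹ • ee v 0 := by
    rw [hZdef, down_apply_zero _ _ _ hgam0]
  have hZ : ∀ k ≤ d, Z (ee v (k + 1)) = (xx d q (k + 1))⁻¹ • ee v (k + 1) +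
      gam d q a b c (k + 1) • ee v k := by
    intro k hk
    rw [hZdef, down_apply_succ _ _ _ hgamd k hk]
  have hA : ∀ k ≤ d, A (ee v k) = (a * xx d q k + a⁻¹ * (xx d q k)⁻¹) • ee v k +
      ee v (k + 1) := by
    intro k hk
    rw [lower_apply v A _ hvA, lam_rev hq d k hk]
  have hB0 : B (ee v 0) = (b * (xx d q 0)⁻¹ + b⁻¹ * xx d q 0) • ee v 0 := by
    rw [upper_apply v B _ _ hvB 0 (by omega), lam_eq hq, if_pos rfl, add_zero]
  have hB : ∀ k ≤ d, B (ee v (k + 1)) = (b * (xx d q (k + 1))⁻¹ + b⁻¹ * xx d q (k + 1)) •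
      ee v (k + 1) + (gam d q a b c (k + 1) * (b - a / c * q * xx d q (k + 1))) • ee v k := by
    intro k hk
    by_cases h : k + 1 < d + 1
    · rw [upper_apply v B _ _ hvB _ h, lam_eq hq, if_neg (by omega), psi_eq hq ha hb hc,
        Nat.add_sub_cancel]
    · have h2 : k = d := by omega
      subst h2
      rw [ee_of_ge v (le_refl _), map_zero, hgamd, zero_mul, zero_smul, smul_zero, add_zero]
  have hgsucc : ∀ k, gg d q (k + 1) = (1 - q ^ 2 * (q ^ d) * (xx d q k)⁻¹) *
      (1 - (q ^ d)⁻¹ * (xx d q k)⁻¹) := by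
    intro k
    unfold gg xx
    have h2 := pow_ne_zero k hq
    have h4 := pow_ne_zero d hq
    rw [pow_succ q k]
    generalize q ^ k = P at *
    generalize q ^ d = Q at *
    field_simp
  refine ⟨X, X', Y, Z, ⟨?_, ?_, ?_, ?_, ?_⟩, ⟨?_, ?_⟩, ?_, ?_, ?_⟩
  · -- X X' = 1
    apply ext_ee v
    intro k _
    rw [Module.End.mul_apply, hX', map_smul, hX, smul_smul, inv_mul_cancel₀ (hx k), one_smul,
      Module.End.one_apply]
  · apply ext_ee v
    intro k _
    rw [Module.End.mul_apply, hX, map_smul, hX', smul_smul, mul_inv_cancel₀ (hx k), one_smul,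
      Module.End.one_apply]
  · -- XY
    apply ext_ee v
    intro k _
    have h1 := hx k
    simp only [LinearMap.sub_apply, LinearMap.smul_apply, Module.End.mul_apply,
      Module.End.one_apply, hX, hY, map_add, map_smul, hxs]
    have e1 : q * ((xx d q k)⁻¹ * xx d q k) - q⁻¹ * (xx d q k * (xx d q k)⁻¹) = q - q⁻¹ := by
      field_simp
    have e2 : q * ((den d q a b c k)⁻¹ * (xx d q k / q ^ 2)) -
        q⁻¹ * (xx d q k * (den d q a b c k)⁻¹) = 0 := by
      generalize (den d q a b c k)⁻¹ = D
      field_simp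
      ring
    linear_combination (norm := module) e1 • ee v k + e2 • ee v (k + 1)
  · -- YZ
    apply ext_ee v
    intro k hk
    cases k with
    | zero =>
      have h1 := hx 0
      simp only [LinearMap.sub_apply, LinearMap.smul_apply, Module.End.mul_apply,
        Module.End.one_apply, hZ0, hY, map_add, map_smul, hZ 0 hk]
      have e0 := hbg 0 hk
      rw [hgsucc 0, zero_add] at e0
      rw [zero_add, hxs 0]
      have e1 : q * ((xx d q 0)⁻¹ * (xx d q 0)⁻¹) - q⁻¹ * ((xx d q 0)⁻¹ * (xx d q 0)⁻¹ +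
          (den d q a b c 0)⁻¹ * gam d q a b c 1) = q - q⁻¹ := by
        rw [e0]
        have hQ : xx d q 0 = q ^ d := by simp [xx]
        rw [hQ]
        have h4 := pow_ne_zero d hq
        generalize q ^ d = Q at *
        field_simp
        ring
      have e2 : q * ((xx d q 0)⁻¹ * (den d q a b c 0)⁻¹) -
          q⁻¹ * ((den d q a b c 0)⁻¹ * (xx d q 0 / q ^ 2)⁻¹) = 0 := by
        generalize (den d q a b c 0)⁻¹ = D
        field_simp
        ring
      linear_combination (norm := module) e1 • ee v 0 + e2 • ee v 1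
    | succ m =>
      have h1 := hx m
      simp only [LinearMap.sub_apply, LinearMap.smul_apply, Module.End.mul_apply,
        Module.End.one_apply, hZ m (by omega), hY, map_add, map_smul, hZ (m + 1) hk]
      have e0 := hbg (m + 1) hk
      have e0' := hbg m (by omega)
      rw [hgsucc (m + 1), hxs m] at e0
      rw [hgsucc m] at e0'
      rw [hxs (m + 1), hxs m]
      have e1 : q * ((xx d q m / q ^ 2)⁻¹ * (xx d q m / q ^ 2)⁻¹ +
          (den d q a b c m)⁻¹ * gam d q a b c (m + 1)) -
          q⁻¹ * ((xx d q m / q ^ 2)⁻¹ * (xx d q m / q ^ 2)⁻¹ +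
          (den d q a b c (m + 1))⁻¹ * gam d q a b c (m + 1 + 1)) = q - q⁻¹ := by
        rw [e0, e0']
        have h4 := pow_ne_zero d hq
        generalize q ^ d = Q at *
        generalize xx d q m = x at *
        field_simp
        ring
      have e2 : q * ((xx d q m / q ^ 2)⁻¹ * (den d q a b c (m + 1))⁻¹) -
          q⁻¹ * ((den d q a b c (m + 1))⁻¹ * (xx d q m / q ^ 2 / q ^ 2)⁻¹) = 0 := by
        generalize (den d q a b c (m + 1))⁻¹ = D
        field_simp
        ring
      have e3 : q * (gam d q a b c (m + 1) * (xx d q m)⁻¹) -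
          q⁻¹ * ((xx d q m / q ^ 2)⁻¹ * gam d q a b c (m + 1)) = 0 := by
        generalize gam d q a b c (m + 1) = D
        field_simp
        ring
      linear_combination (norm := module) e1 • ee v (m + 1) + e2 • ee v (m + 1 + 1) + e3 • ee v m
  · -- ZX
    apply ext_ee v
    intro k hk
    cases k with
    | zero =>
      have h1 := hx 0
      simp only [LinearMap.sub_apply, LinearMap.smul_apply, Module.End.mul_apply,
        Module.End.one_apply, hZ0, hX, map_smul]
      have e1 : q * (xx d q 0 * (xx d q 0)⁻¹) - q⁻¹ * ((xx d q 0)⁻¹ * xx d q 0) = q - q⁻¹ := by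
        field_simp
      linear_combination (norm := module) e1 • ee v 0
    | succ m =>
      have h1 := hx m
      have h2 := hx (m + 1)
      simp only [LinearMap.sub_apply, LinearMap.smul_apply, Module.End.mul_apply,
        Module.End.one_apply, hZ m (by omega), hX, map_add, map_smul]
      have e1 : q * (xx d q (m + 1) * (xx d q (m + 1))⁻¹) -
          q⁻¹ * ((xx d q (m + 1))⁻¹ * xx d q (m + 1)) = q - q⁻¹ := by
        field_simp
      have e3 : q * (xx d q (m + 1) * gam d q a b c (m + 1)) -
          q⁻¹ * (gam d q a b c (m + 1) * xx d q m) = 0 := by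
        rw [hxs m]
        generalize gam d q a b c (m + 1) = D
        field_simp
        ring
      linear_combination (norm := module) e1 • ee v (m + 1) + e3 • ee v m
  · -- V ≠ 0
    exact ⟨v 0, 0, v.ne_zero 0⟩
  · -- irreducibility
    intro W hW
    have hXv : ∀ i : Fin (d + 1), X (v i) = xx d q i • v i := by
      intro i
      rw [← ee_coe v i, hX]
    refine irred_of v X (Y + Z) (fun i => xx d q i) hXv ?_ ?_ W (fun w hw => (hW w hw).1)
      (fun w hw => by
        rw [LinearMap.add_apply]
        exact W.add_mem (hW w hw).2.2.1 (hW w hw).2.2.2)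
    · intro i j hij
      exact Fin.ext (hdist i j (by omega) (by omega) hij)
    · intro i j hij
      have hrepr : ∀ (k : ℕ) (i : Fin (d + 1)), v.repr (ee v k) i = if k = i then 1 else 0 := by
        intro k i
        by_cases hk : k < d + 1
        · rw [ee_of_lt v hk, v.repr_self, Finsupp.single_apply]
          by_cases hki : k = i
          · rw [if_pos hki, if_pos (Fin.ext hki)]
          · rw [if_neg hki, if_neg (fun h => hki (congrArg Fin.val h))]
        · rw [ee_of_ge v (by omega), map_zero, if_neg (by omega)]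
          rfl
      rcases hij with hij | hij
      · -- lowering
        obtain ⟨m, hm⟩ : ∃ m : ℕ, (j : ℕ) = m + 1 := ⟨i, hij.symm⟩
        have him : (i : ℕ) = m := by omega
        rw [← ee_coe v j, hm, LinearMap.add_apply, hY, hZ m (by omega)]
        simp only [map_add, map_smul, Finsupp.add_apply, Finsupp.smul_apply, hrepr, smul_eq_mul]
        rw [if_neg (by omega), if_neg (by omega), if_pos him.symm]
        simp only [mul_zero, mul_one, zero_add]
        exact hgam (m + 1) (by omega) (by omega)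
      · -- raising
        rw [← ee_coe v j, LinearMap.add_apply, hY]
        have hZr : v.repr (Z (ee v j)) i = 0 := by
          rcases Nat.eq_zero_or_pos (j : ℕ) with h0 | h0
          · rw [h0, hZ0, map_smul, Finsupp.smul_apply, hrepr, if_neg (by omega), smul_zero]
          · obtain ⟨m, hm⟩ : ∃ m : ℕ, (j : ℕ) = m + 1 := ⟨j - 1, by omega⟩
            rw [hm, hZ m (by omega)]
            simp only [map_add, map_smul, Finsupp.add_apply, Finsupp.smul_apply, hrepr,
              smul_eq_mul]
            rw [if_neg (by omega), if_neg (by omega)]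
            simp
        simp only [map_add, map_smul, Finsupp.add_apply, Finsupp.smul_apply, hrepr, smul_eq_mul,
          hZr]
        rw [if_neg (by omega), if_pos hij]
        simp only [mul_zero, mul_one, zero_add, add_zero]
        exact inv_ne_zero (hden j (by omega))
  · -- A
    apply ext_ee v
    intro k hk
    have h1 := hx k
    simp only [LinearMap.add_apply, LinearMap.sub_apply, LinearMap.smul_apply,
      Module.End.mul_apply, hX, hY, map_add, map_smul, hxs, hA k hk]
    have e1 : a * xx d q k + a⁻¹ * (xx d q k)⁻¹ = a * xx d q k + a⁻¹ * (xx d q k)⁻¹ +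
        c / b * ((q - q⁻¹)⁻¹ * ((xx d q k)⁻¹ * xx d q k - xx d q k * (xx d q k)⁻¹)) := by
      ring
    rcases hk.lt_or_eq with h | h
    · have hd := hden k h
      have e2 : 1 = a⁻¹ * (den d q a b c k)⁻¹ + c / b * ((q - q⁻¹)⁻¹ *
          ((den d q a b c k)⁻¹ * (xx d q k / q ^ 2) - xx d q k * (den d q a b c k)⁻¹)) := by
        have h5 : a⁻¹ + c / b * ((q - q⁻¹)⁻¹ * (xx d q k / q ^ 2 - xx d q k)) =
            den d q a b c k := by
          unfold den
          have h6 : (q - q⁻¹)⁻¹ * (xx d q k / q ^ 2 - xx d q k) = - (q⁻¹ * xx d q k) := by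
            rw [inv_mul_eq_iff_eq_mul₀ hqq]
            field_simp
            ring
          rw [h6]
          ring
        calc (1 : K) = (den d q a b c k)⁻¹ * den d q a b c k := (inv_mul_cancel₀ hd).symm
          _ = (den d q a b c k)⁻¹ *
            (a⁻¹ + c / b * ((q - q⁻¹)⁻¹ * (xx d q k / q ^ 2 - xx d q k))) := by rw [h5]
          _ = _ := by ring
      linear_combination (norm := module) e1 • ee v k + e2 • ee v (k + 1)
    · subst h
      rw [ee_of_ge v (le_refl _)]
      simp only [smul_zero, add_zero]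
      linear_combination (norm := module) e1 • ee v k
  · -- B
    apply ext_ee v
    intro k hk
    cases k with
    | zero =>
      have h1 := hx 0
      simp only [LinearMap.add_apply, LinearMap.sub_apply, LinearMap.smul_apply,
        Module.End.mul_apply, hX, hZ0, map_smul, hB0]
      have e1 : b * (xx d q 0)⁻¹ + b⁻¹ * xx d q 0 = b * (xx d q 0)⁻¹ + b⁻¹ * xx d q 0 +
          a / c * ((q - q⁻¹)⁻¹ * (xx d q 0 * (xx d q 0)⁻¹ - (xx d q 0)⁻¹ * xx d q 0)) := by
        ring
      linear_combination (norm := module) e1 • ee v 0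
    | succ m =>
      have h1 := hx m
      have h2 := hx (m + 1)
      simp only [LinearMap.add_apply, LinearMap.sub_apply, LinearMap.smul_apply,
        Module.End.mul_apply, hX, hZ m (by omega), map_add, map_smul, hB m (by omega)]
      have e1 : b * (xx d q (m + 1))⁻¹ + b⁻¹ * xx d q (m + 1) = b * (xx d q (m + 1))⁻¹ +
          b⁻¹ * xx d q (m + 1) + a / c * ((q - q⁻¹)⁻¹ * (xx d q (m + 1) * (xx d q (m + 1))⁻¹ -
          (xx d q (m + 1))⁻¹ * xx d q (m + 1))) := by
        ring
      have e3 : gam d q a b c (m + 1) * (b - a / c * q * xx d q (m + 1)) =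
          b * gam d q a b c (m + 1) + a / c * ((q - q⁻¹)⁻¹ *
          (xx d q (m + 1) * gam d q a b c (m + 1) - gam d q a b c (m + 1) * xx d q m)) := by
        have h6 : (q - q⁻¹)⁻¹ * (xx d q (m + 1) * gam d q a b c (m + 1) -
            gam d q a b c (m + 1) * xx d q m) =
            - (q * xx d q (m + 1) * gam d q a b c (m + 1)) := by
          rw [inv_mul_eq_iff_eq_mul₀ hqq, hxs m]
          generalize gam d q a b c (m + 1) = D
          field_simp
          ring
        rw [h6]
        ring
      linear_combination (norm := module) e1 • ee v (m + 1) + e3 • ee v m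
  · -- E
    have hE2 : (q ^ 2 - (q ^ 2)⁻¹) • E = (q ^ 2 - (q ^ 2)⁻¹) •
        (c • Y + c⁻¹ • Z + (b / a) • ((q - q⁻¹)⁻¹ • (Y * Z - Z * Y))) := by
      rw [hE]
      -- the coefficients
      have c_up : ∀ k, k < d →
          q⁻¹ * (b * (xx d q k)⁻¹ + b⁻¹ * xx d q k) -
            q * (b * (xx d q k / q ^ 2)⁻¹ + b⁻¹ * (xx d q k / q ^ 2)) =
          (q ^ 2 - (q ^ 2)⁻¹) * (c * (den d q a b c k)⁻¹ + b / a * ((q - q⁻¹)⁻¹ *
            ((xx d q k)⁻¹ * (den d q a b c k)⁻¹ -
              (den d q a b c k)⁻¹ * (xx d q k / q ^ 2)⁻¹))) := by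
        intro k hk
        have hd := hden k hk
        have h1 := hx k
        have h6 : (q - q⁻¹)⁻¹ * ((xx d q k)⁻¹ - (xx d q k / q ^ 2)⁻¹) = - (q * (xx d q k)⁻¹) := by
          rw [inv_mul_eq_iff_eq_mul₀ hqq]
          field_simp
          ring
        have h7 : c * (den d q a b c k)⁻¹ + b / a * ((q - q⁻¹)⁻¹ *
            ((xx d q k)⁻¹ * (den d q a b c k)⁻¹ -
              (den d q a b c k)⁻¹ * (xx d q k / q ^ 2)⁻¹)) = - (b * q * (xx d q k)⁻¹) := by
          have h8 : c + b / a * (- (q * (xx d q k)⁻¹)) =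
              - (b * q * (xx d q k)⁻¹) * den d q a b c k := by
            unfold den
            field_simp
            ring
          calc _ = (c + b / a * ((q - q⁻¹)⁻¹ * ((xx d q k)⁻¹ - (xx d q k / q ^ 2)⁻¹))) *
                (den d q a b c k)⁻¹ := by ring
            _ = - (b * q * (xx d q k)⁻¹) * (den d q a b c k * (den d q a b c k)⁻¹) := by
                rw [h6, h8]; ring
            _ = _ := by rw [mul_inv_cancel₀ hd, mul_one]
        rw [h7]
        field_simp
        ring
      have c_down : ∀ m, q⁻¹ * ((gam d q a b c (m + 1) * (b - a / c * q * (xx d q m / q ^ 2))) *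
            (a * xx d q m + a⁻¹ * (xx d q m)⁻¹)) -
            q * ((a * (xx d q m / q ^ 2) + a⁻¹ * (xx d q m / q ^ 2)⁻¹) *
            (gam d q a b c (m + 1) * (b - a / c * q * (xx d q m / q ^ 2)))) =
          (q ^ 2 - (q ^ 2)⁻¹) * (c⁻¹ * gam d q a b c (m + 1) + b / a * ((q - q⁻¹)⁻¹ *
            (gam d q a b c (m + 1) * (xx d q m)⁻¹ -
              (xx d q m / q ^ 2)⁻¹ * gam d q a b c (m + 1)))) := by
        intro m
        have h1 := hx m
        have h6 : (q - q⁻¹)⁻¹ * (gam d q a b c (m + 1) * (xx d q m)⁻¹ -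
              (xx d q m / q ^ 2)⁻¹ * gam d q a b c (m + 1)) =
              - (q * (xx d q m)⁻¹ * gam d q a b c (m + 1)) := by
          rw [inv_mul_eq_iff_eq_mul₀ hqq]
          generalize gam d q a b c (m + 1) = D
          field_simp
          ring
        rw [h6]
        generalize gam d q a b c (m + 1) = D
        field_simp
        ring
      have hpsi : ∀ m, gam d q a b c (m + 1) * (b - a / c * q * (xx d q m / q ^ 2)) =
          (1 - q ^ 2 * (q ^ d) * (xx d q m)⁻¹) * (1 - (q ^ d)⁻¹ * (xx d q m)⁻¹) *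
          (a⁻¹ - c / b * q * (xx d q m / q ^ 2)) * (b - a / c * q * (xx d q m / q ^ 2)) := by
        intro m
        unfold gam
        rw [hgsucc, hxs]
      apply ext_ee v
      intro k hk
      cases k with
      | zero =>
        have h1 := hx 0
        have e0 := hbg 0 hk
        rw [hgsucc 0, zero_add] at e0
        have hps := hpsi 0
        rw [zero_add] at hps
        simp only [LinearMap.add_apply, LinearMap.sub_apply, LinearMap.smul_apply,
          Module.End.mul_apply, Module.End.one_apply, hY, map_add, map_smul, hB0, hZ0, hZ 0 hk,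
          hA 0 hk, hB 0 hk, zero_add, hxs 0]
        have e1 : q⁻¹ * ((b * (xx d q 0)⁻¹ + b⁻¹ * xx d q 0) *
            (a * xx d q 0 + a⁻¹ * (xx d q 0)⁻¹)) -
            q * ((a * xx d q 0 + a⁻¹ * (xx d q 0)⁻¹) * (b * (xx d q 0)⁻¹ + b⁻¹ * xx d q 0) +
              gam d q a b c 1 * (b - a / c * q * (xx d q 0 / q ^ 2))) +
            (q - q⁻¹) * ((a + a⁻¹) * (b + b⁻¹) + (c + c⁻¹) * (q ^ (d + 1) + (q ^ (d + 1))⁻¹)) =
            (q ^ 2 - (q ^ 2)⁻¹) * (c * (xx d q 0)⁻¹ + c⁻¹ * (xx d q 0)⁻¹ + b / a *
              ((q - q⁻¹)⁻¹ * ((xx d q 0)⁻¹ * (xx d q 0)⁻¹ - ((xx d q 0)⁻¹ * (xx d q 0)⁻¹ +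
                (den d q a b c 0)⁻¹ * gam d q a b c 1)))) := by
          have h6 : (q - q⁻¹)⁻¹ * ((xx d q 0)⁻¹ * (xx d q 0)⁻¹ - ((xx d q 0)⁻¹ * (xx d q 0)⁻¹ +
                (den d q a b c 0)⁻¹ * gam d q a b c 1)) =
              - ((q - q⁻¹)⁻¹ * (1 - q ^ 2)) * (1 - (xx d q 0)⁻¹ * (xx d q 0)⁻¹) := by
            rw [e0]
            have hQ : xx d q 0 = q ^ d := by simp [xx]
            rw [hQ]
            have h4 := pow_ne_zero d hq
            generalize q ^ d = Q at *
            have : (1 - q ^ 2 * Q * Q⁻¹) = 1 - q ^ 2 := by field_simp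
            rw [this]
            ring
          have h7 : (q - q⁻¹)⁻¹ * (1 - q ^ 2) = - q := by
            rw [inv_mul_eq_iff_eq_mul₀ hqq]
            field_simp
            ring
          rw [h6, h7, hps]
          have hQ : xx d q 0 = q ^ d := by simp [xx]
          rw [hQ, pow_succ q d]
          have h4 := pow_ne_zero d hq
          generalize q ^ d = Q at *
          field_simp
          ring
        rcases hk.lt_or_eq with h | h
        · have e2 := c_up 0 h
          linear_combination (norm := module) e1 • ee v 0 + e2 • ee v 1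
        · subst h
          rw [ee_of_ge v (le_refl _)]
          simp only [smul_zero, add_zero]
          linear_combination (norm := module) e1 • ee v 0
      | succ m =>
        have h1 := hx m
        have e0 := hbg (m + 1) hk
        have e0' := hbg m (by omega)
        rw [hgsucc (m + 1), hxs m] at e0
        rw [hgsucc m] at e0'
        have hps := hpsi m
        have hps' := hpsi (m + 1)
        rw [hxs m] at hps'
        simp only [LinearMap.add_apply, LinearMap.sub_apply, LinearMap.smul_apply,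
          Module.End.mul_apply, Module.End.one_apply, hY, map_add, map_smul, hZ m (by omega),
          hZ (m + 1) hk, hA (m + 1) hk, hA m (by omega), hB (m + 1) hk, hB m (by omega),
          hxs (m + 1), hxs m]
        have e1 : q⁻¹ * ((b * (xx d q m / q ^ 2)⁻¹ + b⁻¹ * (xx d q m / q ^ 2)) *
            (a * (xx d q m / q ^ 2) + a⁻¹ * (xx d q m / q ^ 2)⁻¹) +
            gam d q a b c (m + 1) * (b - a / c * q * (xx d q m / q ^ 2))) -
            q * ((a * (xx d q m / q ^ 2) + a⁻¹ * (xx d q m / q ^ 2)⁻¹) *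
              (b * (xx d q m / q ^ 2)⁻¹ + b⁻¹ * (xx d q m / q ^ 2)) +
              gam d q a b c (m + 1 + 1) * (b - a / c * q * (xx d q m / q ^ 2 / q ^ 2))) +
            (q - q⁻¹) * ((a + a⁻¹) * (b + b⁻¹) + (c + c⁻¹) * (q ^ (d + 1) + (q ^ (d + 1))⁻¹)) =
            (q ^ 2 - (q ^ 2)⁻¹) * (c * (xx d q m / q ^ 2)⁻¹ + c⁻¹ * (xx d q m / q ^ 2)⁻¹ + b / a *
              ((q - q⁻¹)⁻¹ * (((xx d q m / q ^ 2)⁻¹ * (xx d q m / q ^ 2)⁻¹ +
                (den d q a b c m)⁻¹ * gam d q a b c (m + 1)) -
                ((xx d q m / q ^ 2)⁻¹ * (xx d q m / q ^ 2)⁻¹ +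
                (den d q a b c (m + 1))⁻¹ * gam d q a b c (m + 1 + 1))))) := by
          have h6 : (q - q⁻¹)⁻¹ * (((xx d q m / q ^ 2)⁻¹ * (xx d q m / q ^ 2)⁻¹ +
                (den d q a b c m)⁻¹ * gam d q a b c (m + 1)) -
                ((xx d q m / q ^ 2)⁻¹ * (xx d q m / q ^ 2)⁻¹ +
                (den d q a b c (m + 1))⁻¹ * gam d q a b c (m + 1 + 1))) =
              q * (xx d q m)⁻¹ * (q ^ 2 * q ^ d + (q ^ d)⁻¹ - (xx d q m)⁻¹ * q ^ 2 * (1 + q ^ 2)) := by
            rw [e0, e0', inv_mul_eq_iff_eq_mul₀ hqq]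
            have h4 := pow_ne_zero d hq
            generalize q ^ d = Q at *
            generalize xx d q m = x at *
            field_simp
            ring
          rw [h6, hps, hps', pow_succ q d]
          have h4 := pow_ne_zero d hq
          generalize q ^ d = Q at *
          generalize xx d q m = x at *
          field_simp
          ring
        have e3 := c_down m
        rcases hk.lt_or_eq with h | h
        · have e2 := c_up (m + 1) h
          rw [hxs m] at e2
          linear_combination (norm := module) e1 • ee v (m + 1) + e2 • ee v (m + 1 + 1) +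
            e3 • ee v m
        · have h5 : ee v (m + 1 + 1) = 0 := ee_of_ge v (by omega)
          rw [h5]
          simp only [smul_zero, add_zero]
          linear_combination (norm := module) e1 • ee v (m + 1) + e3 • ee v m
    have h1 := congrArg (fun t => (q ^ 2 - (q ^ 2)⁻¹)⁻¹ • t) hE2
    change (q ^ 2 - (q ^ 2)⁻¹)⁻¹ • _ = (q ^ 2 - (q ^ 2)⁻¹)⁻¹ • _ at h1
    rw [smul_smul, smul_smul, inv_mul_cancel₀ hqq4, one_smul, one_smul] at h1
    exact h1

end Q4.Leo
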