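import Pool.Agent.Q4.Leo.Defs

/-!
# Invariant subspaces
-/

namespace Q4.Leo

variable {K V : Type*} [Field K] [AddCommGroup V] [Module K V]

/-- A subspace which is invariant under a diagonal map with distinct eigenvalues contains the
components of its elements. -/
lemma component_mem {n : ℕ} (v : Module.Basis (Fin n) K V) (D : Module.End K V) (δ : Fin n → K)
    (hD : ∀ i, D (v i) = δ i • v i) (hinj : Function.Injective δ) (W : Submodule K V)
    (hW : ∀ w ∈ W, D w ∈ W) (w : V) (hw : w ∈ W) (j : Fin n) : v.repr w j • v j ∈ W := by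
  have hpoly : ∀ p : Polynomial K, ∀ w ∈ W, (Polynomial.aeval D p) w ∈ W := by
    intro p
    induction p using Polynomial.induction_on' with
    | add p q hp hq =>
      intro w hw
      rw [map_add, LinearMap.add_apply]
      exact W.add_mem (hp w hw) (hq w hw)
    | monomial m c =>
      intro w hw
      rw [Polynomial.aeval_monomial, Module.End.mul_apply, Module.algebraMap_end_apply]
      apply W.smul_mem
      induction m with
      | zero => exact hw
      | succ m ih =>
        rw [pow_succ', Module.End.mul_apply]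
        exact hW _ ih
  have hv : ∀ p : Polynomial K, ∀ i, (Polynomial.aeval D p) (v i) = p.eval (δ i) • v i := by
    intro p i
    induction p using Polynomial.induction_on' with
    | add p q hp hq =>
      rw [map_add, LinearMap.add_apply, hp, hq, Polynomial.eval_add, add_smul]
    | monomial m c =>
      rw [Polynomial.aeval_monomial, Module.End.mul_apply, Module.algebraMap_end_apply,
        Polynomial.eval_monomial, mul_smul]
      congr 1
      induction m with
      | zero => simp
      | succ m ih =>
        rw [pow_succ', Module.End.mul_apply, ih, map_smul, hD, smul_smul, pow_succ]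
  classical
  have h1 := hpoly (Lagrange.basis Finset.univ δ j) w hw
  have h2 : (Polynomial.aeval D (Lagrange.basis Finset.univ δ j)) w = v.repr w j • v j := by
    conv_lhs => rw [← v.sum_repr w]
    rw [map_sum]
    rw [Finset.sum_eq_single j]
    · rw [map_smul, hv, Lagrange.eval_basis_self hinj.injOn (Finset.mem_univ j), one_smul]
    · intro i _ hij
      rw [map_smul, hv, Lagrange.eval_basis_of_ne (Ne.symm hij) (Finset.mem_univ i), zero_smul,
        smul_zero]
    · intro h
      exact absurd (Finset.mem_univ j) h
  rw [h2] at h1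
  exact h1

/-- A nonzero subspace contains a basis vector (if it is invariant under the diagonal map). -/
lemma exists_mem {n : ℕ} (v : Module.Basis (Fin n) K V) (D : Module.End K V) (δ : Fin n → K)
    (hD : ∀ i, D (v i) = δ i • v i) (hinj : Function.Injective δ) (W : Submodule K V)
    (hW : ∀ w ∈ W, D w ∈ W) (hne : W ≠ ⊥) : ∃ j, v j ∈ W := by
  obtain ⟨w, hw, hw0⟩ := W.exists_mem_ne_zero_of_ne_bot hne
  obtain ⟨j, hj⟩ : ∃ j, v.repr w j ≠ 0 := by
    by_contra h
    push Not at h
    apply hw0
    rw [← v.repr.map_eq_zero_iff]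
    ext j
    exact h j
  refine ⟨j, ?_⟩
  have h1 := component_mem v D δ hD hinj W hW w hw j
  have h2 := W.smul_mem (v.repr w j)⁻¹ h1
  rwa [smul_smul, inv_mul_cancel₀ hj, one_smul] at h2

lemma coe_toMatrix {n : ℕ} (v : Module.Basis (Fin n) K V) (A : Module.End K V) (j : Fin n) :
    A (v j) = ∑ i, LinearMap.toMatrix v v A i j • v i := by
  conv_lhs => rw [← v.sum_repr (A (v j))]
  refine Finset.sum_congr rfl ?_
  intro i _
  rw [LinearMap.toMatrix_apply]

/-- If `B` is irreducible tridiagonal in the basis and `A` is diagonal with distinct eigenvalues,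
then an invariant subspace is trivial. -/
lemma irred_of {d : ℕ} (v : Module.Basis (Fin (d + 1)) K V) (A B : Module.End K V)
    (δ : Fin (d + 1) → K) (hA : ∀ i, A (v i) = δ i • v i) (hinj : Function.Injective δ)
    (hB : ∀ i j : Fin (d + 1), (i : ℕ) + 1 = j ∨ (j : ℕ) + 1 = i → v.repr (B (v j)) i ≠ 0)
    (W : Submodule K V) (hWA : ∀ w ∈ W, A w ∈ W) (hWB : ∀ w ∈ W, B w ∈ W) : W = ⊥ ∨ W = ⊤ := by
  by_cases hne : W = ⊥
  · exact Or.inl hne
  right
  obtain ⟨j, hj⟩ := exists_mem v A δ hA hinj W hWA hne
  have step : ∀ i k : Fin (d + 1), ((i : ℕ) + 1 = k ∨ (k : ℕ) + 1 = i) → v k ∈ W → v i ∈ W := by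
    intro i k hik hk
    have h1 := component_mem v A δ hA hinj W hWA _ (hWB _ hk) i
    have h2 := W.smul_mem (v.repr (B (v k)) i)⁻¹ h1
    rwa [smul_smul, inv_mul_cancel₀ (hB i k hik), one_smul] at h2
  have up : ∀ m : ℕ, ∀ hm : (j : ℕ) + m < d + 1, v ⟨j + m, hm⟩ ∈ W := by
    intro m
    induction m with
    | zero => intro hm; exact hj
    | succ m ih =>
      intro hm
      exact step ⟨j + (m + 1), hm⟩ ⟨j + m, by omega⟩ (Or.inr rfl) (ih (by omega))
  have down : ∀ m : ℕ, ∀ hm : m ≤ (j : ℕ), v ⟨j - m, by omega⟩ ∈ W := by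
    intro m
    induction m with
    | zero => intro hm; exact hj
    | succ m ih =>
      intro hm
      refine step ⟨j - (m + 1), by omega⟩ ⟨j - m, by omega⟩ (Or.inl ?_) (ih (by omega))
      show (j : ℕ) - (m + 1) + 1 = j - m
      omega
  have all : ∀ i, v i ∈ W := by
    intro i
    rcases le_total (j : ℕ) i with h | h
    · have := up (i - j) (by omega)
      have e : (⟨(j : ℕ) + (i - j), by omega⟩ : Fin (d + 1)) = i := Fin.ext (by
        show (j : ℕ) + (i - j) = i
        omega)
      rwa [e] at this
    · have := down (j - i) (by omega)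
      have e : (⟨(j : ℕ) - (j - i), by omega⟩ : Fin (d + 1)) = i := Fin.ext (by
        show (j : ℕ) - (j - i) = i
        omega)
      rwa [e] at this
  rw [eq_top_iff, ← v.span_eq, Submodule.span_le]
  rintro x ⟨i, rfl⟩
  exact all i

/-- The eigenvalues of an irreducible tridiagonal diagonalisable map are distinct. -/
lemma distinct {d : ℕ} (v v' : Module.Basis (Fin (d + 1)) K V) (A : Module.End K V)
    (δ : Fin (d + 1) → K) (hA : ∀ i, A (v i) = δ i • v i)
    (hA' : IrredTridiag (LinearMap.toMatrix v' v' A)) : Function.Injective δ := by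
  -- an eigenvector with vanishing first coordinate is zero
  have key : ∀ (μ : K) (x : V), A x = μ • x → v'.repr x 0 = 0 → x = 0 := by
    intro μ x hx h0
    have hcoord : ∀ n : ℕ, ∀ hn : n < d + 1, v'.repr x ⟨n, hn⟩ = 0 := by
      intro n
      induction n using Nat.strong_induction_on with
      | _ n ih =>
        intro hn
        rcases Nat.eq_zero_or_pos n with rfl | hpos
        · exact h0
        · obtain ⟨m, rfl⟩ : ∃ m, n = m + 1 := ⟨n - 1, by omega⟩
          have h1 : v'.repr (A x) ⟨m, by omega⟩ = μ * v'.repr x ⟨m, by omega⟩ := by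
            rw [hx, map_smul, Finsupp.smul_apply, smul_eq_mul]
          rw [ih m (by omega) (by omega), mul_zero] at h1
          have h2 : v'.repr (A x) ⟨m, by omega⟩ =
              ∑ j, LinearMap.toMatrix v' v' A ⟨m, by omega⟩ j * v'.repr x j := by
            have := LinearMap.toMatrix_mulVec_repr v' v' A x
            have h3 := congrFun this ⟨m, by omega⟩
            rw [← h3]
            rfl
          rw [h2, Finset.sum_eq_single ⟨m + 1, hn⟩] at h1
          · rcases mul_eq_zero.mp h1 with h | h
            · exact absurd h (hA'.2 _ _ (Or.inl rfl))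
            · exact h
          · intro j _ hj
            rcases lt_trichotomy (j : ℕ) (m + 1) with h | h | h
            · rw [ih j h j.2, mul_zero]
            · exact absurd (Fin.ext h) hj
            · rw [hA'.1 _ _ (Or.inl h), zero_mul]
          · intro h
            exact absurd (Finset.mem_univ _) h
    rw [← v'.repr.map_eq_zero_iff]
    ext j
    exact hcoord j j.2
  intro i j hij
  by_contra hne
  -- a combination of the two eigenvectors has a vanishing coordinate
  set x := v'.repr (v j) 0 • v i - v'.repr (v i) 0 • v j with hx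
  have h1 : A x = δ i • x := by
    rw [hx, map_sub, map_smul, map_smul, hA, hA, ← hij]
    module
  have h2 : v'.repr x 0 = 0 := by
    rw [hx, map_sub, map_smul, map_smul, Finsupp.sub_apply, Finsupp.smul_apply,
      Finsupp.smul_apply, smul_eq_mul, smul_eq_mul]
    ring
  have h3 := key _ _ h1 h2
  have h4 : v.repr x i = v'.repr (v j) 0 := by
    rw [hx, map_sub, map_smul, map_smul, Finsupp.sub_apply, Finsupp.smul_apply,
      Finsupp.smul_apply, v.repr_self, v.repr_self, Finsupp.single_eq_same,
      Finsupp.single_eq_of_ne hne]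
    simp
  rw [h3, map_zero, Finsupp.zero_apply] at h4
  have h5 := key (δ j) (v j) (hA j) h4.symm
  exact v.ne_zero j h5

/-- A Leonard pair has no proper invariant subspace. -/
lemma leonard_irred {d : ℕ} (A B : Module.End K V) (h : IsLeonardPair d A B) (W : Submodule K V)
    (hWA : ∀ w ∈ W, A w ∈ W) (hWB : ∀ w ∈ W, B w ∈ W) : W = ⊥ ∨ W = ⊤ := by
  obtain ⟨⟨v, hv1, hv2⟩, ⟨v', _, hv'2⟩⟩ := h
  have hA : ∀ i, A (v i) = LinearMap.toMatrix v v A i i • v i := by
    intro i
    rw [coe_toMatrix v A i, Finset.sum_eq_single i]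
    · intro j _ hj
      rw [hv1 hj, zero_smul]
    · intro h
      exact absurd (Finset.mem_univ _) h
  refine irred_of v A B (fun i => LinearMap.toMatrix v v A i i) hA
    (distinct v v' A _ hA hv'2) ?_ W hWA hWB
  intro i j hij
  have := hv2.2 i j hij
  rwa [LinearMap.toMatrix_apply] at this

end Q4.Leo
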