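import Pool.Agent.Q4.Leo.Irred

/-!
# The equitable action
-/

namespace Q4.Leo

variable {K V : Type*} [Field K] [AddCommGroup V] [Module K V]

/-- The eigenvalues of `X`. -/
noncomputable def xx (d : ℕ) (q : K) (k : ℕ) : K := q ^ d / (q ^ k) ^ 2

/-- The numbers `g_k = (1 - q^{2k})(1 - q^{2k-2d-2})`. -/
noncomputable def gg (d : ℕ) (q : K) (k : ℕ) : K :=
  (1 - (q ^ k) ^ 2) * (1 - (q ^ k) ^ 2 / (q ^ 2 * (q ^ d) ^ 2))

noncomputable def den (d : ℕ) (q a b c : K) (k : ℕ) : K := a⁻¹ - c / b * q⁻¹ * xx d q k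

noncomputable def gam (d : ℕ) (q a b c : K) (k : ℕ) : K :=
  gg d q k * (a⁻¹ - c / b * q * xx d q k)

lemma xx_ne {d : ℕ} {q : K} (hq : q ≠ 0) (k : ℕ) : xx d q k ≠ 0 := by
  unfold xx
  exact div_ne_zero (pow_ne_zero _ hq) (pow_ne_zero _ (pow_ne_zero _ hq))

lemma xx_succ {d : ℕ} {q : K} (hq : q ≠ 0) (k : ℕ) : xx d q (k + 1) = xx d q k / q ^ 2 := by
  unfold xx
  have := pow_ne_zero k hq
  have := pow_ne_zero d hq
  rw [pow_succ]
  field_simp
  ring

lemma zpow_cast {q : K} (hq : q ≠ 0) (d k : ℕ) :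
    q ^ (2 * (k : ℤ) - d) = (q ^ k) ^ 2 / q ^ d := by
  rw [zpow_sub₀ hq, zpow_mul', zpow_natCast, zpow_natCast]
  norm_cast

lemma zpow_cast' {q : K} (hq : q ≠ 0) (d k : ℕ) :
    q ^ ((d : ℤ) - 2 * (k : ℤ)) = q ^ d / (q ^ k) ^ 2 := by
  rw [zpow_sub₀ hq, zpow_mul', zpow_natCast, zpow_natCast]
  norm_cast

lemma lam_eq {q : K} (hq : q ≠ 0) (d k : ℕ) (b : K) :
    lam d q b k = b * (xx d q k)⁻¹ + b⁻¹ * xx d q k := by
  unfold lam xx
  rw [zpow_cast hq, zpow_cast' hq, inv_div]

lemma lam_rev {q : K} (hq : q ≠ 0) (d k : ℕ) (hk : k ≤ d) (a : K) :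
    lam d q a (d - k) = a * xx d q k + a⁻¹ * (xx d q k)⁻¹ := by
  unfold lam xx
  have h1 : 2 * ((d - k : ℕ) : ℤ) - d = (d : ℤ) - 2 * (k : ℤ) := by
    rw [Nat.cast_sub hk]; ring
  have h2 : (d : ℤ) - 2 * ((d - k : ℕ) : ℤ) = 2 * (k : ℤ) - d := by
    rw [Nat.cast_sub hk]; ring
  rw [h1, h2, zpow_cast hq, zpow_cast' hq, inv_div]

lemma gg_zero (d : ℕ) (q : K) : gg d q 0 = 0 := by simp [gg]

lemma gg_last {d : ℕ} {q : K} (hq : q ≠ 0) : gg d q (d + 1) = 0 := by
  unfold gg
  have h1 := pow_ne_zero d hq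
  have : (q ^ (d + 1)) ^ 2 / (q ^ 2 * (q ^ d) ^ 2) = 1 := by
    rw [pow_succ]
    field_simp
    ring
  rw [this, sub_self, mul_zero]

lemma psi_eq {q : K} (hq : q ≠ 0) {a b c : K} (ha : a ≠ 0) (hb : b ≠ 0) (hc : c ≠ 0) (d k : ℕ) :
    psi d q a b c k = gam d q a b c k * (b - a / c * q * xx d q k) := by
  unfold psi gam uu rr gg xx
  have h1 := pow_ne_zero d hq
  have h2 := pow_ne_zero k hq
  have e1 : q ^ (-(k : ℤ)) = (q ^ k)⁻¹ := by rw [zpow_neg, zpow_natCast]
  have e2 : q ^ (k : ℤ) = q ^ k := zpow_natCast _ _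
  have e3 : q ^ ((d : ℤ) - k + 1) = q ^ d * q / q ^ k := by
    rw [show (d : ℤ) - k + 1 = (d : ℤ) + 1 - k by ring, zpow_sub₀ hq, zpow_add₀ hq, zpow_one,
      zpow_natCast, zpow_natCast]
  have e4 : q ^ ((k : ℤ) - d - 1) = q ^ k / (q ^ d * q) := by
    rw [show (k : ℤ) - d - 1 = (k : ℤ) - ((d : ℤ) + 1) by ring, zpow_sub₀ hq, zpow_add₀ hq,
      zpow_one, zpow_natCast, zpow_natCast]
  rw [e1, e2, e3, e4, pow_succ q d]
  generalize q ^ d = Q at *
  generalize q ^ k = P at *
  field_simp
  ring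

section

variable {d : ℕ} (v : Module.Basis (Fin (d + 1)) K V)

/-- The basis vectors, extended by zero. -/
noncomputable def ee (k : ℕ) : V := if h : k < d + 1 then v ⟨k, h⟩ else 0

lemma ee_of_lt {k : ℕ} (h : k < d + 1) : ee v k = v ⟨k, h⟩ := dif_pos h

lemma ee_of_ge {k : ℕ} (h : d + 1 ≤ k) : ee v k = 0 := dif_neg (not_lt.mpr h)

lemma ee_coe (i : Fin (d + 1)) : ee v i = v i := by
  rw [ee_of_lt v i.2]

/-- Two linear maps which agree on the `e_k` are equal. -/
lemma ext_ee {F G : Module.End K V} (h : ∀ k ≤ d, F (ee v k) = G (ee v k)) : F = G := by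
  apply v.ext
  intro i
  rw [← ee_coe v i]
  exact h i (by omega)

/-- The raising maps. -/
noncomputable def up (δ β : ℕ → K) : Module.End K V :=
  v.constr K fun i => δ i • v i + β i • ee v (i + 1)

lemma up_apply (δ β : ℕ → K) (k : ℕ) :
    up v δ β (ee v k) = δ k • ee v k + β k • ee v (k + 1) := by
  by_cases h : k < d + 1
  · rw [ee_of_lt v h]
    unfold up
    rw [Module.Basis.constr_basis]
  · rw [ee_of_ge v (by omega), ee_of_ge v (by omega), map_zero, smul_zero, smul_zero, add_zero]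

/-- The lowering maps. -/
noncomputable def down (δ γ : ℕ → K) : Module.End K V :=
  v.constr K fun i => δ i • v i + γ i • ee v (i - 1)

lemma down_apply_zero (δ γ : ℕ → K) (h0 : γ 0 = 0) :
    down v δ γ (ee v 0) = δ 0 • ee v 0 := by
  have h : 0 < d + 1 := by omega
  rw [ee_of_lt v h]
  unfold down
  rw [Module.Basis.constr_basis]
  simp [h0]

lemma down_apply_succ (δ γ : ℕ → K) (hd : γ (d + 1) = 0) (k : ℕ) (hk : k ≤ d) :
    down v δ γ (ee v (k + 1)) = δ (k + 1) • ee v (k + 1) + γ (k + 1) • ee v k := by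
  by_cases h : k + 1 < d + 1
  · rw [ee_of_lt v h]
    unfold down
    rw [Module.Basis.constr_basis]
    simp
  · have h2 : k = d := by omega
    subst h2
    rw [ee_of_ge v (le_refl _), map_zero, hd, zero_smul, smul_zero, add_zero]

lemma lower_apply (A : Module.End K V) (D : ℕ → K)
    (hA : LinearMap.toMatrix v v A = lowerBidiag d D) (k : ℕ) :
    A (ee v k) = D k • ee v k + ee v (k + 1) := by
  by_cases h : k < d + 1
  · rw [ee_of_lt v h, coe_toMatrix v A, hA]
    have h1 : ∀ i : Fin (d + 1), lowerBidiag d D i ⟨k, h⟩ • v i =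
        (if i = ⟨k, h⟩ then D k • v ⟨k, h⟩ else 0) + (if (i : ℕ) = k + 1 then v i else 0) := by
      intro i
      unfold lowerBidiag
      by_cases h2 : i = ⟨k, h⟩
      · subst h2
        simp
      · rw [if_neg h2, if_neg h2, zero_add]
        show (if (i : ℕ) = k + 1 then (1 : K) else 0) • v i = _
        by_cases h3 : (i : ℕ) = k + 1
        · rw [if_pos h3, if_pos h3, one_smul]
        · rw [if_neg h3, if_neg h3, zero_smul]
    rw [Finset.sum_congr rfl (fun i _ => h1 i), Finset.sum_add_distrib, Finset.sum_ite_eq',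
      if_pos (Finset.mem_univ _)]
    congr 1
    by_cases h4 : k + 1 < d + 1
    · rw [ee_of_lt v h4, Finset.sum_eq_single ⟨k + 1, h4⟩]
      · simp
      · intro i _ hi
        rw [if_neg]
        intro h5
        exact hi (Fin.ext h5)
      · intro h5
        exact absurd (Finset.mem_univ _) h5
    · rw [ee_of_ge v (by omega)]
      apply Finset.sum_eq_zero
      intro i _
      rw [if_neg]
      have := i.2
      omega
  · rw [ee_of_ge v (by omega), ee_of_ge v (by omega), map_zero, smul_zero, add_zero]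

lemma upper_apply (B : Module.End K V) (D s : ℕ → K)
    (hB : LinearMap.toMatrix v v B = upperBidiag d D s) (k : ℕ) (h : k < d + 1) :
    B (ee v k) = D k • ee v k + (if k = 0 then 0 else s k • ee v (k - 1)) := by
  rw [ee_of_lt v h, coe_toMatrix v B, hB]
  have h1 : ∀ i : Fin (d + 1), upperBidiag d D s i ⟨k, h⟩ • v i =
      (if i = ⟨k, h⟩ then D k • v ⟨k, h⟩ else 0) + (if (i : ℕ) + 1 = k then s k • v i else 0) := by
    intro i
    unfold upperBidiag
    by_cases h2 : i = ⟨k, h⟩
    · subst h2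
      simp
    · rw [if_neg h2, if_neg h2, zero_add]
      show (if (i : ℕ) + 1 = k then s k else 0) • v i = _
      by_cases h3 : (i : ℕ) + 1 = k
      · rw [if_pos h3, if_pos h3]
      · rw [if_neg h3, if_neg h3, zero_smul]
  rw [Finset.sum_congr rfl (fun i _ => h1 i), Finset.sum_add_distrib, Finset.sum_ite_eq',
    if_pos (Finset.mem_univ _)]
  congr 1
  by_cases h4 : k = 0
  · rw [if_pos h4]
    apply Finset.sum_eq_zero
    intro i _
    rw [if_neg]
    omega
  · rw [if_neg h4, ee_of_lt v (by omega : k - 1 < d + 1),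
      Finset.sum_eq_single ⟨k - 1, by omega⟩]
    · rw [if_pos]
      show k - 1 + 1 = k
      omega
    · intro i _ hi
      rw [if_neg]
      intro h5
      apply hi
      apply Fin.ext
      show (i : ℕ) = k - 1
      omega
    · intro h5
      exact absurd (Finset.mem_univ _) h5

/-- The superdiagonal entries of a Leonard pair are nonzero. -/
lemma super_ne (A B : Module.End K V) (hL : IsLeonardPair d A B) (D D' s : ℕ → K)
    (hA : LinearMap.toMatrix v v A = lowerBidiag d D)
    (hB : LinearMap.toMatrix v v B = upperBidiag d D' s) (k : ℕ) (hk1 : 1 ≤ k) (hk : k ≤ d) :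
    s k ≠ 0 := by
  intro hs
  set W : Submodule K V := Submodule.span K {x | ∃ m, k ≤ m ∧ x = ee v m} with hW
  have hmem : ∀ m, k ≤ m → ee v m ∈ W := fun m hm => Submodule.subset_span ⟨m, hm, rfl⟩
  have hWA : ∀ w ∈ W, A w ∈ W := by
    intro w hw
    induction hw using Submodule.span_induction with
    | mem x hx =>
      obtain ⟨m, hm, rfl⟩ := hx
      rw [lower_apply v A D hA]
      exact W.add_mem (W.smul_mem _ (hmem m hm)) (hmem _ (by omega))
    | zero => rw [map_zero]; exact W.zero_mem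
    | add x y _ _ hx hy => rw [map_add]; exact W.add_mem hx hy
    | smul c x _ hx => rw [map_smul]; exact W.smul_mem _ hx
  have hWB : ∀ w ∈ W, B w ∈ W := by
    intro w hw
    induction hw using Submodule.span_induction with
    | mem x hx =>
      obtain ⟨m, hm, rfl⟩ := hx
      by_cases hm2 : m < d + 1
      · rw [upper_apply v B D' s hB m hm2, if_neg (by omega)]
        refine W.add_mem (W.smul_mem _ (hmem m hm)) ?_
        rcases hm.eq_or_lt with h | h
        · rw [← h, hs, zero_smul]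
          exact W.zero_mem
        · exact W.smul_mem _ (hmem _ (by omega))
      · rw [ee_of_ge v (by omega), map_zero]
        exact W.zero_mem
    | zero => rw [map_zero]; exact W.zero_mem
    | add x y _ _ hx hy => rw [map_add]; exact W.add_mem hx hy
    | smul c x _ hx => rw [map_smul]; exact W.smul_mem _ hx
  rcases leonard_irred A B hL W hWA hWB with h | h
  · have h1 := hmem k le_rfl
    rw [h, Submodule.mem_bot, ee_of_lt v (by omega : k < d + 1)] at h1
    exact v.ne_zero _ h1
  · have h0 : ∀ w ∈ W, v.repr w 0 = 0 := by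
      intro w hw
      induction hw using Submodule.span_induction with
      | mem x hx =>
        obtain ⟨m, hm, rfl⟩ := hx
        by_cases hm2 : m < d + 1
        · rw [ee_of_lt v hm2, v.repr_self, Finsupp.single_eq_of_ne]
          intro h1
          have := congrArg Fin.val h1
          simp at this
          omega
        · simp [ee_of_ge v (by omega : d + 1 ≤ m)]
      | zero => simp
      | add x y _ _ hx hy => rw [map_add, Finsupp.add_apply, hx, hy, add_zero]
      | smul c x _ hx => rw [map_smul, Finsupp.smul_apply, hx, smul_zero]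
    have h1 := h0 (v 0) (by rw [h]; trivial)
    rw [v.repr_self, Finsupp.single_eq_same] at h1
    exact one_ne_zero h1

end

end Q4.Leo
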